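import Pool.Agent.H27.EQDS.Defs
import Pool.Agent.H73.EQD.Main
import Pool.Agent.H32.EQD.DISK1
import Pool.Agent.H70.EQD.EXI

/-!
The theorem in terms of `Pool.Agent.H27.EQDS.Defs`, from the theorem of `Pool.Agent.H73.EQD.Main`.
-/

set_option autoImplicit false

open Set Topology

namespace Pool.Agent.H27.EQDS

theorem old : EQD.IsSNAKnot EQD.K0 ∧ ∃ D₁ D₂ : Set EQD.E4,
      EQD.IsSliceDisk EQD.K0 D₁ ∧ EQD.IsSliceDisk EQD.K0 D₂ ∧ EQD.rho '' D₁ = D₁ ∧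
      EQD.rho '' D₂ = D₂ ∧ EQD.SmoothIsotopic D₁ D₂ ∧
      ¬ EQD.SmoothEquivIsotopic D₁ D₂ ∧ ¬ EQD.TopEquivIsotopic D₁ D₂ ∧ ¬ EQD.EquivHomeo D₁ D₂ :=
  EQD.main (EQD.exi EQD.clo EQD.lc EQD.tabulate EQD.refpts) EQD.disk1

/-- `ℝ⁴` -/
abbrev E4 : Type := EuclideanSpace ℝ (Fin 4)
/-- `ℝ²` -/
abbrev E2 : Type := EuclideanSpace ℝ (Fin 2)

theorem ball_eq (E : Type) [NormedAddCommGroup E] : Ball E = Metric.closedBall 0 1 := by
  ext x
  rw [Ball, mem_setOf_eq, Metric.mem_closedBall, dist_zero_right]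

theorem sphere_eq (E : Type) [NormedAddCommGroup E] : {x : E | ‖x‖ = 1} = Metric.sphere 0 1 := by
  ext x
  rw [mem_setOf_eq, Metric.mem_sphere, dist_zero_right]

theorem b4_eq : EQD.B4 = Ball E4 := (ball_eq E4).symm

theorem mem_s3 (x : E4) : x ∈ EQD.S3 ↔ ‖x‖ = 1 := by
  rw [EQD.S3, Metric.mem_sphere, dist_zero_right]

/-- the vector `(0, 0, 0, 1)` -/
noncomputable def u0 : E4 := EuclideanSpace.single 3 1
/-- the vector `(0, 1, 0, 0)` -/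
noncomputable def v0 : E4 := EuclideanSpace.single 1 1

theorem rho_eq : rho u0 = EQD.rho := by
  funext p
  have h : inner ℝ u0 p = p 3 := by
    rw [u0, EuclideanSpace.inner_single_left]
    simp
  ext i
  rw [rho, h]
  fin_cases i <;> simp [EQD.rho, u0]
  ring

theorem circle_eq : circle u0 v0 = EQD.K0 := by
  ext p
  constructor
  · rintro ⟨h1, s, t, rfl⟩
    refine ⟨(mem_s3 _).mpr h1, ?_, ?_⟩ <;> simp [u0, v0]
  · rintro ⟨h1, h2, h3⟩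
    refine ⟨(mem_s3 _).mp h1, p 3, p 1, ?_⟩
    ext i
    fin_cases i <;> simp [u0, v0, h2, h3]

theorem rho_ball (x : E4) (hx : x ∈ Ball E4) : EQD.rho x ∈ Ball E4 := by
  have h : ‖EQD.rho x‖ = ‖x‖ := by
    rw [EuclideanSpace.norm_eq, EuclideanSpace.norm_eq]
    simp [EQD.rho, Fin.sum_univ_four]
  show ‖EQD.rho x‖ ≤ 1
  rw [h]
  exact hx

theorem knot (h : EQD.IsSNAKnot EQD.K0) : IsSNAKnot EQD.rho EQD.K0 := by
  obtain ⟨γ, a1, a2, a3, a4, a5, a6, a7⟩ := h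
  exact ⟨γ, a1, a2, a3, a4, fun t => (mem_s3 _).mp (a5 t), a6, a7⟩

theorem slice {K D : Set E4} (h : EQD.IsSliceDisk K D) : IsSliceDisk E2 K D := by
  obtain ⟨e, a1, a2, a3, a4, a5, a6, a7⟩ := h
  refine ⟨e, a1, ?_, ?_, ?_, ?_, ?_, ?_⟩
  · rw [ball_eq]; exact a2
  · rw [ball_eq]; exact a3
  · rw [ball_eq]; exact a4
  · rw [sphere_eq]; exact a5
  · intro x hx
    exact a6 x (by rw [Metric.mem_ball, dist_zero_right]; exact hx)
  · intro x hx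
    exact a7 x (by rw [Metric.mem_sphere, dist_zero_right]; exact hx)

theorem equivHomeo {D₁ D₂ : Set E4} (h : EquivHomeo EQD.rho D₁ D₂) : EQD.EquivHomeo D₁ D₂ := by
  obtain ⟨Φ, ⟨c1, ⟨Ψ, c2, hb⟩, h2, h3⟩, h4⟩ := h
  unfold EQD.EquivHomeo
  rw [b4_eq]
  refine ⟨⟨⟨fun x => ⟨Φ x, (hb x x.2).1⟩, fun x => ⟨Ψ x, (hb x x.2).2.1⟩, ?_, ?_⟩, ?_, ?_⟩,
    ?_, ?_, ?_⟩
  · intro x; exact Subtype.ext (hb x x.2).2.2.1
  · intro x; exact Subtype.ext (hb x x.2).2.2.2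
  · exact Continuous.subtype_mk (continuousOn_iff_continuous_restrict.mp c1) _
  · exact Continuous.subtype_mk (continuousOn_iff_continuous_restrict.mp c2) _
  · intro x hx
    exact Subtype.ext (h2 x ((mem_s3 _).mp hx))
  · intro x y hxy
    change Φ y = EQD.rho (Φ x)
    rw [hxy]
    exact h3 x x.2
  · intro x
    exact h4 x x.2

theorem top {D₁ D₂ : Set E4} (h : TopEquivIsotopic EQD.rho D₁ D₂) : EQD.EquivHomeo D₁ D₂ := by
  obtain ⟨H, _, h1, _, h3⟩ := h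
  exact equivHomeo ⟨H 1, h1 1 ⟨zero_le_one, le_refl 1⟩, h3⟩

theorem smooth {D₁ D₂ : Set E4} (h : SmoothEquivIsotopic EQD.rho D₁ D₂) :
    EQD.SmoothEquivIsotopic D₁ D₂ := by
  obtain ⟨H, ⟨H', a1, a2, a3, a4, a5, a6, a7, a8, a9⟩, h2⟩ := h
  refine ⟨H, H', a1, a2, a3, a4, ?_, ?_, ?_, a8, ?_, a9⟩
  · rw [b4_eq]; exact a5
  · rw [b4_eq]; exact a6
  · intro t x hx; exact a7 t x ((mem_s3 _).mp hx)
  · rw [b4_eq]; exact h2

theorem iso {D₁ D₂ : Set E4} (h : EQD.SmoothIsotopic D₁ D₂) : SmoothIsotopic D₁ D₂ := by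
  obtain ⟨H, H', a1, a2, a3, a4, a5, a6, a7, a8, a9⟩ := h
  rw [b4_eq] at a5 a6
  exact ⟨H, H', a1, a2, a3, a4, a5, a6, fun t x hx => a7 t x ((mem_s3 _).mpr hx), a8, a9⟩

theorem main : HasExample (EuclideanSpace ℝ (Fin 4)) (EuclideanSpace ℝ (Fin 2)) := by
  obtain ⟨hK, D₁, D₂, s1, s2, r1, r2, hiso, _, _, hno⟩ := old
  refine ⟨u0, v0, by simp [u0], by simp [v0], ?_, ?_⟩
  · rw [u0, EuclideanSpace.inner_single_left]
    simp [v0]
  · rw [rho_eq, circle_eq]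
    exact ⟨knot hK, D₁, D₂, slice s1, slice s2, r1, r2, iso hiso,
      fun h => hno (smooth h).equivHomeo, fun h => hno (top h), fun h => hno (equivHomeo h)⟩

end Pool.Agent.H27.EQDS
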