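import Mathlib

/-!
Definitions for MP_d3855f_gt: smooth disks in the unit ball of a Euclidean space `E`, isotopies rel
the unit sphere, equivariant isotopies with respect to an involution `rho`. In the theorem `E` is
`ℝ⁴`, so that the unit ball is `B⁴` and the unit sphere is `S³`, and `P` is the Euclidean plane.
-/

set_option autoImplicit false

open Set Topology

namespace Pool.Agent.H27.EQDS

variable {E : Type} [NormedAddCommGroup E] [InnerProductSpace ℝ E]

/-- The closed unit ball. -/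
def Ball (E : Type) [NormedAddCommGroup E] : Set E := {x | ‖x‖ ≤ 1}

/-- `K` is a smoothly embedded circle in the unit sphere, parametrised such that `rho` acts on it as
the reflection `t ↦ -t`: strongly negative amphichiral with respect to `rho`. -/
def IsSNAKnot (rho : E → E) (K : Set E) : Prop :=
  ∃ γ : ℝ → E, ContDiff ℝ (⊤ : ℕ∞) γ ∧ (∀ t, γ (t + 1) = γ t) ∧
    (∀ s t, γ s = γ t → ∃ n : ℤ, s - t = n) ∧ (∀ t, deriv γ t ≠ 0) ∧ (∀ t, ‖γ t‖ = 1) ∧
    (∀ t, rho (γ t) = γ (-t)) ∧ K = range γ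

/-- `D` is a smoothly and properly embedded disk in the unit ball with boundary `K`: the image of
the closed unit disk of the Euclidean plane `P` under a smooth map `e`, injective and immersive on
the disk, which maps the open disk into the open ball and the unit circle onto `K`, and the disk is
transverse to the unit sphere. -/
def IsSliceDisk (P : Type) [NormedAddCommGroup P] [InnerProductSpace ℝ P] (K D : Set E) : Prop :=
  ∃ e : P → E, ContDiff ℝ (⊤ : ℕ∞) e ∧ InjOn e (Ball P) ∧
    (∀ h ∈ Ball P, Function.Injective (fderiv ℝ e h)) ∧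
    e '' Ball P = D ∧ e '' {h | ‖h‖ = 1} = K ∧ (∀ h : P, ‖h‖ < 1 → ‖e h‖ < 1) ∧
    ∀ h : P, ‖h‖ = 1 → ‖e h‖ = 1 ∧ 0 < inner ℝ (e h) (fderiv ℝ e h h)

/-- `H` is a smooth family `H t`, `t ∈ ℝ`, of diffeomorphisms of `E` which preserve the unit ball and
fix the unit sphere pointwise, `H 0` is the identity, and `H 1` carries `D₁` onto `D₂`. -/
def IsIsotopy (H : ℝ → E → E) (D₁ D₂ : Set E) : Prop :=
  ∃ H' : ℝ → E → E, ContDiff ℝ (⊤ : ℕ∞) (fun q : ℝ × E => H q.1 q.2) ∧
    ContDiff ℝ (⊤ : ℕ∞) (fun q : ℝ × E => H' q.1 q.2) ∧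
    (∀ t x, H' t (H t x) = x) ∧ (∀ t x, H t (H' t x) = x) ∧
    (∀ t, ∀ x ∈ Ball E, H t x ∈ Ball E) ∧ (∀ t, ∀ x ∈ Ball E, H' t x ∈ Ball E) ∧
    (∀ t x, ‖x‖ = 1 → H t x = x) ∧ (∀ x, H 0 x = x) ∧ H 1 '' D₁ = D₂

/-- `D₁` and `D₂` are smoothly ambient isotopic in the unit ball rel the unit sphere. -/
def SmoothIsotopic (D₁ D₂ : Set E) : Prop := ∃ H : ℝ → E → E, IsIsotopy H D₁ D₂

/-- `D₁` and `D₂` are equivariantly isotopic in the smooth category: there is such an isotopy each
stage of which commutes with the involution on the unit ball. -/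
def SmoothEquivIsotopic (rho : E → E) (D₁ D₂ : Set E) : Prop :=
  ∃ H : ℝ → E → E, IsIsotopy H D₁ D₂ ∧ ∀ t, ∀ x ∈ Ball E, H t (rho x) = rho (H t x)

/-- `Φ` maps the unit ball homeomorphically onto itself (with inverse `Ψ`), fixes the unit sphere
pointwise and commutes with the involution. -/
def IsEquivHomeo (rho : E → E) (Φ : E → E) : Prop :=
  ContinuousOn Φ (Ball E) ∧
    (∃ Ψ : E → E, ContinuousOn Ψ (Ball E) ∧
      ∀ x ∈ Ball E, Φ x ∈ Ball E ∧ Ψ x ∈ Ball E ∧ Ψ (Φ x) = x ∧ Φ (Ψ x) = x) ∧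
    (∀ x, ‖x‖ = 1 → Φ x = x) ∧ ∀ x ∈ Ball E, Φ (rho x) = rho (Φ x)

/-- `D₁` and `D₂` are equivariantly isotopic in the topological category: there is a continuous
path `H t`, `0 ≤ t ≤ 1`, of homeomorphisms of the unit ball from the identity, each of them fixing
the unit sphere pointwise and commuting with the involution, with `H 1` carrying `D₁` onto `D₂`. -/
def TopEquivIsotopic (rho : E → E) (D₁ D₂ : Set E) : Prop :=
  ∃ H : ℝ → E → E, ContinuousOn (fun q : ℝ × E => H q.1 q.2) (Icc 0 1 ×ˢ Ball E) ∧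
    (∀ t ∈ Icc (0 : ℝ) 1, IsEquivHomeo rho (H t)) ∧ (∀ x ∈ Ball E, H 0 x = x) ∧
    ∀ x ∈ Ball E, x ∈ D₁ ↔ H 1 x ∈ D₂

/-- There is a homeomorphism of the unit ball fixing the unit sphere pointwise, commuting with the
involution and carrying `D₁` onto `D₂`. -/
def EquivHomeo (rho : E → E) (D₁ D₂ : Set E) : Prop :=
  ∃ Φ : E → E, IsEquivHomeo rho Φ ∧ ∀ x ∈ Ball E, x ∈ D₁ ↔ Φ x ∈ D₂

/-- The knot `K` is strongly negative amphichiral and bounds two smooth disks in the unit ball, both
invariant under `rho`, which are smoothly isotopic rel the unit sphere but are not equivariantly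
isotopic, neither smoothly nor topologically: no homeomorphism of the unit ball that fixes the unit
sphere pointwise and commutes with `rho` carries one to the other. -/
def BoundsTwoDisks (P : Type) [NormedAddCommGroup P] [InnerProductSpace ℝ P] (rho : E → E)
    (K : Set E) : Prop :=
  IsSNAKnot rho K ∧ ∃ D₁ D₂ : Set E,
    IsSliceDisk P K D₁ ∧ IsSliceDisk P K D₂ ∧ rho '' D₁ = D₁ ∧ rho '' D₂ = D₂ ∧
    SmoothIsotopic D₁ D₂ ∧
    ¬ SmoothEquivIsotopic rho D₁ D₂ ∧ ¬ TopEquivIsotopic rho D₁ D₂ ∧ ¬ EquivHomeo rho D₁ D₂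

/-- The involution which fixes `u` and is `-1` on its orthogonal complement (`u` a unit vector): the
standard involution of `B⁴`, the cone of the point reflection of `S³` with the two fixed points
`u` and `-u`. -/
def rho (u p : E) : E := (2 * inner ℝ u p) • u - p

/-- The great circle through the orthogonal unit vectors `u` and `v`, an unknot. -/
def circle (u v : E) : Set E := {p | ‖p‖ = 1 ∧ ∃ s t : ℝ, p = s • u + t • v}

/-- The unknot `circle u v` bounds two such disks for the involution `rho u`. -/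
def HasExample (E P : Type) [NormedAddCommGroup E] [InnerProductSpace ℝ E] [NormedAddCommGroup P]
    [InnerProductSpace ℝ P] : Prop :=
  ∃ u v : E, ‖u‖ = 1 ∧ ‖v‖ = 1 ∧ inner ℝ u v = 0 ∧ BoundsTwoDisks P (rho u) (circle u v)

end Pool.Agent.H27.EQDS
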